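import Pool.Agent.Q267.ST.HDef

/-!
# Project ST of helper267, job ST-Disc (helper177): the discriminant of a weighted homogeneous family
-/

set_option autoImplicit false

open Finset MvPolynomial

namespace Pool.Agent.Q177.ST

open Pool.Agent.Q267.ST.Hom

variable {n : ℕ}

theorem wdeg_add (a : Fin n → ℕ) (u v : Fin n →₀ ℕ) : wdeg a (u + v) = wdeg a u + wdeg a v := by
  unfold wdeg
  rw [← sum_add_distrib]
  refine sum_congr rfl fun i _ => ?_
  rw [Finsupp.add_apply, mul_add]

theorem wdeg_single (a : Fin n → ℕ) (i : Fin n) (r : ℕ) :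
    wdeg a (Finsupp.single i r) = a i * r := by
  unfold wdeg
  rw [Finset.sum_eq_single i]
  · rw [Finsupp.single_eq_same]
  · intro b _ hb
    rw [Finsupp.single_eq_of_ne hb, mul_zero]
  · intro h
    exact absurd (mem_univ _) h

section ring

variable {S : Type} [CommRing S]

/-- the polynomial and its partial derivatives -/
noncomputable def fam (F : MvPolynomial (Fin n) S) : Option (Fin n) → MvPolynomial (Fin n) S
  | none => F
  | some i => pderiv i F

/-- the shift of the degree -/
def sh (a : Fin n → ℕ) : Option (Fin n) → ℕ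
  | none => 0
  | some i => a i

theorem fam_hom (a : Fin n → ℕ) (D : ℕ) (F : MvPolynomial (Fin n) S)
    (hF : ∀ u, coeff u F ≠ 0 → wdeg a u = D) (j : Option (Fin n)) (w : Fin n →₀ ℕ)
    (h : coeff w (fam F j) ≠ 0) : wdeg a w + sh a j = D := by
  cases j with
  | none => exact hF w h
  | some i =>
    have h1 : fam F (some i) = ∑ u ∈ F.support,
        monomial (u - Finsupp.single i 1) (coeff u F * (u i : S)) := by
      show pderiv i F = _
      conv_lhs => rw [F.as_sum]
      rw [map_sum]
      exact sum_congr rfl fun u _ => pderiv_monomial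
    rw [h1, coeff_sum] at h
    obtain ⟨u, hu, hne⟩ := Finset.exists_ne_zero_of_sum_ne_zero h
    rw [coeff_monomial] at hne
    split_ifs at hne with h2
    · have h3 : u i ≠ 0 := by
        intro h0
        apply hne
        rw [h0, Nat.cast_zero, mul_zero]
      have h4 : u = w + Finsupp.single i 1 := by
        rw [← h2, tsub_add_cancel_of_le]
        rw [Finsupp.single_le_iff]
        omega
      have h5 := hF u (mem_support_iff.1 hu)
      rw [h4, wdeg_add, wdeg_single, mul_one] at h5
      exact h5
    · exact absurd rfl hne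

theorem coeff_hom (a : Fin n → ℕ) (D : ℕ) (F : MvPolynomial (Fin n) S)
    (hF : ∀ u, coeff u F ≠ 0 → wdeg a u = D) (j : Option (Fin n)) (u v : Fin n →₀ ℕ)
    (h : coeff v (monomial u 1 * fam F j) ≠ 0) : u ≤ v ∧ wdeg a u + D = wdeg a v + sh a j := by
  rw [coeff_monomial_mul'] at h
  split_ifs at h with h1
  · refine ⟨h1, ?_⟩
    rw [one_mul] at h
    have h2 := fam_hom a D F hF j _ h
    have h3 : v = u + (v - u) := (add_tsub_cancel_of_le h1).symm
    have h4 : wdeg a v = wdeg a u + wdeg a (v - u) := by
      conv_lhs => rw [h3]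
      rw [wdeg_add]
    omega
  · exact absurd rfl h

/-- a box of exponents -/
noncomputable def box (n N : ℕ) : Finset (Fin n →₀ ℕ) :=
  Finset.Iic (Finsupp.equivFunOnFinite.symm fun _ => N)

theorem mem_box {N : ℕ} {u : Fin n →₀ ℕ} : u ∈ box n N ↔ ∀ i, u i ≤ N := by
  unfold box
  rw [Finset.mem_Iic, Finsupp.le_def]
  rfl

/-- the exponents of weighted degree `N` -/
noncomputable def rows (a : Fin n → ℕ) (N : ℕ) : Finset (Fin n →₀ ℕ) :=
  (box n N).filter fun v => wdeg a v = N

theorem mem_rows {a : Fin n → ℕ} (ha : ∀ i, a i ≠ 0) {N : ℕ} {v : Fin n →₀ ℕ} :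
    v ∈ rows a N ↔ wdeg a v = N := by
  unfold rows
  rw [mem_filter, mem_box]
  refine ⟨fun h => h.2, fun h => ⟨fun i => ?_, h⟩⟩
  have h1 : a i * v i ≤ wdeg a v :=
    Finset.single_le_sum (f := fun i => a i * v i) (fun _ _ => Nat.zero_le _) (mem_univ i)
  have h2 : 1 * v i ≤ a i * v i := Nat.mul_le_mul_right _ (Nat.one_le_iff_ne_zero.2 (ha i))
  omega

/-- the matrix -/
noncomputable def BB (a : Fin n → ℕ) (D N : ℕ) (F : MvPolynomial (Fin n) S) :
    Matrix (rows a N) (Option (Fin n) × box n N) S :=
  Matrix.of fun v p => if wdeg a p.2.1 + D = N + sh a p.1 then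
    coeff v.1 (monomial p.2.1 1 * fam F p.1) else 0

theorem fam_map {S' : Type} [CommRing S'] (ψ : S →+* S') (F : MvPolynomial (Fin n) S)
    (j : Option (Fin n)) : fam (map ψ F) j = map ψ (fam F j) := by
  cases j with
  | none => rfl
  | some i => exact pderiv_map

theorem BB_map {S' : Type} [CommRing S'] (ψ : S →+* S') (a : Fin n → ℕ) (D N : ℕ)
    (F : MvPolynomial (Fin n) S) : (BB a D N F).map ψ = BB a D N (map ψ F) := by
  ext v p
  rw [Matrix.map_apply]
  unfold BB
  rw [Matrix.of_apply, Matrix.of_apply]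
  split_ifs with h
  · rw [fam_map, ← coeff_map, map_mul, map_monomial, map_one]
  · exact map_zero _

end ring

section field

variable {K : Type} [Field K]

theorem minor {ι κ : Type} [Fintype ι] [DecidableEq ι] [Fintype κ] (B : Matrix ι κ K)
    (h : ∀ v : ι, ∃ c : κ → K, B.mulVec c = Pi.single v 1) :
    ∃ σ : ι → κ, (B.submatrix id σ).det ≠ 0 := by
  let s : Set (ι → K) := Set.range fun p : κ => fun v => B v p
  have hs : ⊤ ≤ Submodule.span K s := by
    intro x _
    have h1 : ∀ v : ι, (Pi.single v 1 : ι → K) ∈ Submodule.span K s := by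
      intro v
      obtain ⟨c, hc⟩ := h v
      rw [← hc]
      have h2 : B.mulVec c = ∑ p, c p • (fun v => B v p) := by
        funext i
        rw [Finset.sum_apply]
        simp only [Matrix.mulVec, dotProduct, Pi.smul_apply, smul_eq_mul]
        exact sum_congr rfl fun p _ => mul_comm _ _
      rw [h2]
      exact Submodule.sum_mem _ fun p _ => Submodule.smul_mem _ _ (Submodule.subset_span ⟨p, rfl⟩)
    have h3 : x = ∑ v, x v • (Pi.single v 1 : ι → K) := by
      funext i
      rw [Finset.sum_apply, Finset.sum_eq_single i]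
      · simp
      · intro b _ hb
        rw [Pi.smul_apply, Pi.single_eq_of_ne hb.symm, smul_zero]
      · intro h
        exact absurd (mem_univ _) h
    rw [h3]
    exact Submodule.sum_mem _ fun v _ => Submodule.smul_mem _ _ (h1 v)
  let b := Module.Basis.ofSpan hs
  have hb : ∀ i, b i ∈ s := fun i => Module.Basis.ofSpan_subset hs ⟨i, rfl⟩
  let e := b.indexEquiv (Pi.basisFun K ι)
  let b' : Module.Basis ι K (ι → K) := b.reindex e
  have hb' : ∀ i, b' i ∈ s := by
    intro i
    change (b.reindex e) i ∈ s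
    rw [Module.Basis.reindex_apply]
    exact hb _
  choose σ hσ using hb'
  refine ⟨σ, ?_⟩
  have h1 : B.submatrix id σ = Matrix.of fun i j => b' j i := by
    ext i j
    rw [Matrix.submatrix_apply, Matrix.of_apply, ← hσ j]
    rfl
  have h2 : IsUnit (Matrix.of fun i j => b' j i) := by
    rw [← Matrix.linearIndependent_cols_iff_isUnit]
    exact b'.linearIndependent
  rw [h1]
  exact ((Matrix.isUnit_iff_isUnit_det _).mp h2).ne_zero

/-- the forward direction -/
theorem forward (a : Fin n → ℕ) (ha : ∀ i, a i ≠ 0) (D N : ℕ) (F : MvPolynomial (Fin n) K)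
    (hF : ∀ u, coeff u F ≠ 0 → wdeg a u = D)
    (hI : ∀ v, wdeg a v = N → monomial v 1 ∈ Ideal.span (Set.range (fam F)))
    (v : rows a N) : ∃ c : Option (Fin n) × box n N → K,
      (BB a D N F).mulVec c = Pi.single v 1 := by
  classical
  obtain ⟨g, hg⟩ := (Ideal.mem_span_range_iff_exists_fun).1 (hI v.1 ((mem_rows ha).1 v.2))
  refine ⟨fun p => coeff p.2.1 (g p.1), ?_⟩
  funext v'
  have hv' : wdeg a v'.1 = N := (mem_rows ha).1 v'.2
  have hB : ∀ (j : Option (Fin n)) (u : box n N), BB a D N F v' (j, u) =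
      coeff v'.1 (monomial u.1 1 * fam F j) := by
    intro j u
    unfold BB
    rw [Matrix.of_apply]
    split_ifs with h
    · rfl
    · by_contra hne
      have h1 := coeff_hom a D F hF j u.1 v'.1 (fun h0 => hne h0.symm)
      rw [hv'] at h1
      exact h h1.2
  have h1 : ∀ j, coeff v'.1 (g j * fam F j) =
      ∑ u : box n N, coeff v'.1 (monomial u.1 1 * fam F j) * coeff u.1 (g j) := by
    intro j
    have h2 : g j * fam F j = ∑ u ∈ (g j).support, C (coeff u (g j)) * (monomial u 1 * fam F j) := by
      conv_lhs => rw [(g j).as_sum]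
      rw [Finset.sum_mul]
      refine sum_congr rfl fun u _ => ?_
      rw [← mul_assoc, C_mul_monomial, mul_one]
    rw [h2, coeff_sum]
    simp only [coeff_C_mul]
    have h3 : ∑ u : box n N, coeff v'.1 (monomial u.1 1 * fam F j) * coeff u.1 (g j) =
        ∑ u ∈ box n N, coeff v'.1 (monomial u 1 * fam F j) * coeff u (g j) :=
      Finset.sum_coe_sort (box n N) fun u => coeff v'.1 (monomial u 1 * fam F j) * coeff u (g j)
    rw [h3]
    have h4 : ∑ u ∈ (g j).support, coeff u (g j) * coeff v'.1 (monomial u 1 * fam F j) =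
        ∑ u ∈ (g j).support ∪ box n N, coeff v'.1 (monomial u 1 * fam F j) * coeff u (g j) := by
      rw [← Finset.sum_subset (Finset.subset_union_left)]
      · exact sum_congr rfl fun u _ => mul_comm _ _
      · intro u _ hu
        rw [notMem_support_iff.1 hu, mul_zero]
    rw [h4]
    symm
    apply Finset.sum_subset Finset.subset_union_right
    intro u _ hu
    by_contra hne
    apply hu
    have h5 := (coeff_hom a D F hF j u v'.1 (left_ne_zero_of_mul hne)).1
    have h6 : v'.1 ∈ box n N := (mem_filter.1 v'.2).1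
    rw [mem_box] at h6 ⊢
    exact fun i => (h5 i).trans (h6 i)
  show ∑ p, BB a D N F v' p * coeff p.2.1 (g p.1) = _
  rw [Fintype.sum_prod_type]
  simp only [hB]
  rw [← Finset.sum_congr rfl fun j _ => h1 j, ← coeff_sum, hg, coeff_monomial, Pi.single_apply]
  by_cases h : v' = v
  · rw [if_pos h, if_pos (congrArg Subtype.val h).symm]
  · rw [if_neg h, if_neg (fun h' => h (Subtype.ext h'.symm))]

/-- the converse -/
theorem converse (a : Fin n → ℕ) (ha : ∀ i, a i ≠ 0) (D N : ℕ) (F : MvPolynomial (Fin n) K)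
    (hF : ∀ u, coeff u F ≠ 0 → wdeg a u = D) (σ : rows a N → Option (Fin n) × box n N)
    (hdet : ((BB a D N F).submatrix id σ).det ≠ 0) (v : rows a N) :
    monomial v.1 1 ∈ Ideal.span (Set.range (fam F)) := by
  classical
  set M := (BB a D N F).submatrix id σ with hM
  have hu : IsUnit M.det := Ne.isUnit hdet
  set c : rows a N → K := M⁻¹.mulVec (Pi.single v 1) with hc
  have hMc : M.mulVec c = Pi.single v 1 := by
    rw [hc, Matrix.mulVec_mulVec, Matrix.mul_nonsing_inv _ hu, Matrix.one_mulVec]
  have key : monomial v.1 1 = ∑ i, C (c i) * (if wdeg a (σ i).2.1 + D = N + sh a (σ i).1 then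
      monomial (σ i).2.1 1 * fam F (σ i).1 else 0) := by
    ext w
    rw [coeff_sum, coeff_monomial]
    simp only [coeff_C_mul]
    by_cases hw : wdeg a w = N
    · have hw' : w ∈ rows a N := (mem_rows ha).2 hw
      have h1 := congrFun hMc ⟨w, hw'⟩
      rw [Pi.single_apply] at h1
      have h2 : (if v.1 = w then (1 : K) else 0) = if (⟨w, hw'⟩ : rows a N) = v then 1 else 0 := by
        by_cases h : v.1 = w
        · rw [if_pos h, if_pos (Subtype.ext h.symm)]
        · rw [if_neg h, if_neg (fun h' => h (congrArg Subtype.val h').symm)]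
      rw [h2, ← h1]
      show ∑ i, M ⟨w, hw'⟩ i * c i = _
      refine sum_congr rfl fun i _ => ?_
      rw [mul_comm]
      congr 1
      rw [hM, Matrix.submatrix_apply]
      unfold BB
      rw [Matrix.of_apply]
      split_ifs with h
      · rfl
      · rw [coeff_zero]
    · have h1 : v.1 ≠ w := by
        rintro rfl
        exact hw ((mem_rows ha).1 v.2)
      rw [if_neg h1]
      symm
      apply Finset.sum_eq_zero
      intro i _
      split_ifs with h
      · by_contra hne
        have h2 := coeff_hom a D F hF _ _ _ (right_ne_zero_of_mul hne)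
        omega
      · rw [coeff_zero, mul_zero]
  rw [key]
  apply Ideal.sum_mem
  intro i _
  apply Ideal.mul_mem_left
  split_ifs with h
  · exact Ideal.mul_mem_left _ _ (Ideal.subset_span ⟨_, rfl⟩)
  · exact Ideal.zero_mem _

end field

theorem map_member {R R' : Type} [CommRing R] [CommRing R'] (ψ : R →+* R')
    (G : MvPolynomial (Fin n) R) (T : Finset (Fin n →₀ ℕ)) (t : T → R) :
    map ψ (member G T t) = member (map ψ G) T (fun u => ψ (t u)) := by
  unfold member
  rw [map_add, map_sum]
  congr 1
  exact sum_congr rfl fun u _ => map_monomial _ _ _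

theorem member_hom {R : Type} [CommRing R] (a : Fin n → ℕ) (D : ℕ) (G : MvPolynomial (Fin n) R)
    (hG : ∀ u, coeff u G ≠ 0 → wdeg a u = D) (T : Finset (Fin n →₀ ℕ)) (hT : ∀ u ∈ T, wdeg a u = D)
    (t : T → R) : ∀ u, coeff u (member G T t) ≠ 0 → wdeg a u = D := by
  intro u hu
  unfold member at hu
  rw [coeff_add, coeff_sum] at hu
  by_cases h1 : coeff u G = 0
  · rw [h1, zero_add] at hu
    obtain ⟨w, _, hw⟩ := Finset.exists_ne_zero_of_sum_ne_zero hu
    rw [coeff_monomial] at hw
    split_ifs at hw with h2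
    · rw [← h2]
      exact hT _ w.2
    · exact absurd rfl hw
  · exact hG u h1

/-- **job ST-Disc** -/
theorem disc : S_Disc := by
  classical
  intro O _ _ Ω _ _ j n a D ha G hG T hT τ hτ
  have hG' : ∀ u, coeff u G ≠ 0 → wdeg a u = D := fun u hu => hG u (mem_support_iff.2 hu)
  have hmap : ∀ {K : Type} [Field K] (ρ : O →+* K), ∀ u, coeff u (map ρ G) ≠ 0 → wdeg a u = D := by
    intro K _ ρ u hu
    apply hG'
    intro h
    apply hu
    rw [coeff_map, h, map_zero]
  set F := member (map j G) T τ with hFd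
  have hF : ∀ u, coeff u F ≠ 0 → wdeg a u = D := member_hom a D _ (hmap j) T hT τ
  set I := Ideal.span (Set.range (fam F)) with hI
  -- powers of the variables
  have hrad : ∀ i : Fin n, (X i : MvPolynomial (Fin n) Ω) ∈ I.radical := by
    intro i
    rw [← vanishingIdeal_zeroLocus_eq_radical (K := Ω)]
    intro ξ hξ
    rw [mem_zeroLocus_iff] at hξ
    have h0 : ξ = 0 := by
      apply hτ
      · have := hξ _ (Ideal.subset_span ⟨none, rfl⟩)
        rw [aeval_eq_eval] at this
        exact this
      · intro i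
        have := hξ _ (Ideal.subset_span ⟨some i, rfl⟩)
        rw [aeval_eq_eval] at this
        exact this
    rw [aeval_X, h0]
    rfl
  choose r hr using hrad
  set R := ∑ i, r i with hR
  have hRI : ∀ i : Fin n, (X i : MvPolynomial (Fin n) Ω) ^ R ∈ I := by
    intro i
    have h1 : r i ≤ R := Finset.single_le_sum (f := r) (fun _ _ => Nat.zero_le _) (mem_univ i)
    rw [← Nat.add_sub_cancel' h1, pow_add]
    exact Ideal.mul_mem_right _ _ (hr i)
  set N := (∏ i, a i) * (∑ i, a i * R + 1) with hN
  have hprod : 1 ≤ ∏ i, a i := Nat.one_le_iff_ne_zero.2 (Finset.prod_ne_zero_iff.2 fun i _ => ha i)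
  have hN1 : ∑ i, a i * R < N := by
    calc ∑ i, a i * R < 1 * (∑ i, a i * R + 1) := by omega
      _ ≤ N := Nat.mul_le_mul_right _ hprod
  have hmon : ∀ v, wdeg a v = N → monomial v 1 ∈ I := by
    intro v hv
    obtain ⟨i, hi⟩ : ∃ i, R ≤ v i := by
      by_contra hcon
      push Not at hcon
      have h1 : wdeg a v ≤ ∑ i, a i * R :=
        Finset.sum_le_sum fun i _ => Nat.mul_le_mul_left _ (hcon i).le
      omega
    have h1 : (monomial v 1 : MvPolynomial (Fin n) Ω) =
        monomial (v - Finsupp.single i R) 1 * X i ^ R := by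
      rw [X_pow_eq_monomial, monomial_mul, mul_one, tsub_add_cancel_of_le]
      rw [Finsupp.single_le_iff]
      exact hi
    rw [h1]
    exact Ideal.mul_mem_left _ _ (hRI i)
  obtain ⟨σ, hσ⟩ := minor (BB a D N F) (forward a ha D N F hF hmon)
  set Fg : MvPolynomial (Fin n) (MvPolynomial T O) :=
    member (map (C : O →+* MvPolynomial T O) G) T (fun u => X u) with hFg
  have hspec : ∀ {K : Type} [Field K] (ρ : O →+* K) (t : T → K),
      map (eval₂Hom ρ t) Fg = member (map ρ G) T t := by
    intro K _ ρ t
    have h1 : (eval₂Hom ρ t).comp C = ρ := RingHom.ext fun x => by simp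
    have h2 : (fun u : T => (eval₂Hom ρ t) (X u)) = t := by
      funext u
      simp
    rw [hFg, map_member, MvPolynomial.map_map, h1, h2]
  have hdet : ∀ {K : Type} [Field K] (ρ : O →+* K) (t : T → K),
      eval₂ ρ t ((BB a D N Fg).submatrix id σ).det =
        ((BB a D N (member (map ρ G) T t)).submatrix id σ).det := by
    intro K _ ρ t
    have h1 : eval₂ ρ t ((BB a D N Fg).submatrix id σ).det =
        (eval₂Hom ρ t) ((BB a D N Fg).submatrix id σ).det := rfl
    rw [h1, RingHom.map_det, RingHom.mapMatrix_apply, ← hspec ρ t, ← BB_map]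
    rfl
  refine ⟨((BB a D N Fg).submatrix id σ).det, ?_, ?_⟩
  · intro h0
    have h1 := hdet j τ
    rw [h0, eval₂_zero] at h1
    exact hσ h1.symm
  · intro k _ ρ τ' hne ξ hξ0 hξ
    rw [hdet] at hne
    set F' := member (map ρ G) T τ' with hF'
    have hF'h : ∀ u, coeff u F' ≠ 0 → wdeg a u = D := member_hom a D _ (hmap ρ) T hT τ'
    funext i
    have hdvd : a i ∣ N := Dvd.dvd.mul_right (Finset.dvd_prod_of_mem a (mem_univ i)) _
    obtain ⟨e, he⟩ := hdvd
    have he0 : e ≠ 0 := by
      rintro rfl
      rw [mul_zero] at he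
      omega
    have hv : wdeg a (Finsupp.single i e) = N := by rw [wdeg_single, he]
    have h1 := converse a ha D N F' hF'h σ hne ⟨Finsupp.single i e, (mem_rows ha).2 hv⟩
    have h2 : ∀ p ∈ Ideal.span (Set.range (fam F')), aeval ξ p = 0 := by
      intro p hp
      have h3 : Ideal.span (Set.range (fam F')) ≤
          RingHom.ker (aeval ξ : MvPolynomial (Fin n) k →ₐ[k] AlgebraicClosure k) := by
        rw [Ideal.span_le]
        rintro _ ⟨jj, rfl⟩
        cases jj with
        | none => exact hξ0
        | some i => exact hξ i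
      exact h3 hp
    have h3 := h2 _ h1
    simp only at h3
    have h4 : (monomial (Finsupp.single i e) 1 : MvPolynomial (Fin n) k) = X i ^ e :=
      (X_pow_eq_monomial).symm
    rw [h4, map_pow, aeval_X] at h3
    exact (pow_eq_zero_iff he0).1 h3

end Pool.Agent.Q177.ST
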